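import Pool.Agent.Helper9.BSD.Exist3

/-!
# Elliptic curves over `F(t)` of large rank satisfying the conjecture of Birch and Swinnerton-Dyer

`Q = p ^ f` is a power of an odd prime `p` and `E u` is the elliptic curve
`y² = x (x + 1) (x + u ^ (Q + 1))` over `F(t)`, for `u` in `F(t)`.
-/

namespace Pool.Agent.Results.MP_1d384c_nt.LegendreUnlinked

open OddCov

universe v

open scoped Classical in
theorem result (p : ℕ) [Fact p.Prime] (hp : p ≠ 2) (f : ℕ) (hf : 0 < f) :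
    (∀ (F : Type v) [Field F] [Fintype F] [CharP F p],
      (p ^ f) ^ 2 - 1 ∣ Fintype.card F - 1 → ∀ u : RatFunc F,
      (∀ s : F, s ^ (p ^ f + 1) = 1 → OneAbove u s) → Unlinked (p ^ f + 1) u →
        (∀ b₁ b₂ : RatFunc F, b₁ ≠ 0 → b₂ ≠ 0 → LocSol b₁ b₂ (u ^ (p ^ f + 1)) →
          HasPoint (RatFunc F) b₁ b₂ (u ^ (p ^ f + 1))) ∧
        AddGroup.FG (E (u ^ (p ^ f + 1))) ∧
        Module.finrank ℤ (E (u ^ (p ^ f + 1))) = p ^ f - 1) ∧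
    (∀ N : ℕ, ∃ (F : Type) (_ : Field F) (_ : Fintype F) (_ : CharP F p),
      (p ^ f) ^ 2 - 1 ∣ Fintype.card F - 1 ∧
      ∀ D : ℕ, ∃ u : RatFunc F, D ≤ u.num.natDegree ∧
        (∀ s : F, s ^ (p ^ f + 1) = 1 → OneAbove u s) ∧ Unlinked (p ^ f + 1) u ∧
        (∃ Z : Finset (Place F), N ≤ Z.card ∧ ∀ w ∈ Z, plv w u < 1) ∧
        (∃ Z : Finset (Place F), N ≤ Z.card ∧ ∀ w ∈ Z, 1 < plv w u)) := by
  refine ⟨fun F _ _ _ hdiv u h1 h2 => main hp hf hdiv h1 h2, fun N => ?_⟩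
  obtain ⟨F, i1, i2, i3, hdiv, h⟩ := exists_good (Fact.out : p.Prime) hp hf N
  refine ⟨F, i1, i2, i3, hdiv, fun D => ?_⟩
  obtain ⟨u, hu⟩ := h D
  exact ⟨u, hu.deg, hu.above, hu.unl, hu.zeros, hu.poles⟩

end Pool.Agent.Results.MP_1d384c_nt.LegendreUnlinked
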